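import Pool.Agent.R537.LR.Stm

/-! The balanced Hadamard matrices. -/

set_option autoImplicit false

namespace Pool.Agent.NPC.R537LR

namespace HadAux

/-- the Sylvester sign -/
noncomputable def syl (a b : ℕ) : ℝ := if hbit a b then -1 else 1

theorem foldl_xor (l : List Bool) (c : Bool) :
    l.foldl xor c = xor c (l.foldl xor false) := by
  induction l generalizing c with
  | nil => simp
  | cons x l ih =>
    rw [List.foldl_cons, List.foldl_cons, ih, ih (xor false x)]
    simp

theorem hbit_zero_left (b : ℕ) : hbit 0 b = false := by simp [hbit]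

theorem hbit_zero_right (a : ℕ) : hbit a 0 = false := by simp [hbit]

theorem hbit_bit (i j : Bool) (a b : ℕ) :
    hbit (Nat.bit i a) (Nat.bit j b) = xor (i && j) (hbit a b) := by
  by_cases ha : a = 0 ∧ i = false
  · obtain ⟨rfl, rfl⟩ := ha
    simp [hbit_zero_left, Nat.bit]
  by_cases hb : b = 0 ∧ j = false
  · obtain ⟨rfl, rfl⟩ := hb
    simp [hbit_zero_right, Nat.bit]
  unfold hbit
  rw [Nat.bits_append_bit a i (by
      intro h
      by_contra h'
      exact ha ⟨h, by simpa using h'⟩),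
    Nat.bits_append_bit b j (by
      intro h
      by_contra h'
      exact hb ⟨h, by simpa using h'⟩), List.zipWith_cons_cons, List.foldl_cons, foldl_xor]
  simp

theorem syl00 (a b : ℕ) : syl (2 * a) (2 * b) = syl a b := by
  have h := hbit_bit false false a b
  simp only [Nat.bit_false, Bool.false_and, Bool.false_xor] at h
  unfold syl
  rw [h]

theorem syl01 (a b : ℕ) : syl (2 * a) (2 * b + 1) = syl a b := by
  have h := hbit_bit false true a b
  simp only [Nat.bit_false, Nat.bit_true, Bool.false_and, Bool.false_xor] at h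
  unfold syl
  rw [h]

theorem syl10 (a b : ℕ) : syl (2 * a + 1) (2 * b) = syl a b := by
  have h := hbit_bit true false a b
  simp only [Nat.bit_false, Nat.bit_true, Bool.and_false, Bool.false_xor] at h
  unfold syl
  rw [h]

theorem syl11 (a b : ℕ) : syl (2 * a + 1) (2 * b + 1) = -syl a b := by
  have h := hbit_bit true true a b
  simp only [Nat.bit_true, Bool.and_self, Bool.true_xor] at h
  unfold syl
  rw [h]
  cases hbit a b <;> simp

theorem sum_two (f : ℕ → ℝ) (n : ℕ) :
    ∑ a ∈ Finset.range (2 * n), f a = ∑ a ∈ Finset.range n, (f (2 * a) + f (2 * a + 1)) := by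
  induction n with
  | zero => simp
  | succ n ih =>
    rw [show 2 * (n + 1) = 2 * n + 1 + 1 by ring, Finset.sum_range_succ, Finset.sum_range_succ, ih,
      Finset.sum_range_succ]
    ring

/-- the bilinear form -/
noncomputable def S (t : ℕ) (U V : ℕ → ℝ) : ℝ :=
  ∑ a ∈ Finset.range (2 ^ t), ∑ b ∈ Finset.range (2 ^ t), syl a b * U a * V b

theorem S_succ (t : ℕ) (U V : ℕ → ℝ) : S (t + 1) U V =
    S t (fun a => U (2 * a) + U (2 * a + 1)) (fun b => V (2 * b)) +
      S t (fun a => U (2 * a) - U (2 * a + 1)) (fun b => V (2 * b + 1)) := by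
  unfold S
  rw [pow_succ', sum_two, ← Finset.sum_add_distrib]
  refine Finset.sum_congr rfl fun a _ => ?_
  rw [sum_two, sum_two, ← Finset.sum_add_distrib, ← Finset.sum_add_distrib]
  refine Finset.sum_congr rfl fun b _ => ?_
  rw [syl00, syl01, syl10, syl11]
  ring

theorem S_sq (t : ℕ) : ∀ U V : ℕ → ℝ, (S t U V) ^ 2 ≤
    2 ^ t * (∑ a ∈ Finset.range (2 ^ t), U a ^ 2) * ∑ b ∈ Finset.range (2 ^ t), V b ^ 2 := by
  induction t with
  | zero =>
    intro U V
    have h : syl 0 0 = 1 := by simp [syl, hbit_zero_left]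
    simp only [S, pow_zero, Finset.sum_range_one, h]
    nlinarith
  | succ t ih =>
    intro U V
    have h1 := ih (fun a => U (2 * a) + U (2 * a + 1)) (fun b => V (2 * b))
    have h2 := ih (fun a => U (2 * a) - U (2 * a + 1)) (fun b => V (2 * b + 1))
    have hU : ∑ a ∈ Finset.range (2 ^ (t + 1)), U a ^ 2 =
        (∑ a ∈ Finset.range (2 ^ t), (U (2 * a) + U (2 * a + 1)) ^ 2 +
        ∑ a ∈ Finset.range (2 ^ t), (U (2 * a) - U (2 * a + 1)) ^ 2) / 2 := by
      rw [pow_succ', sum_two, ← Finset.sum_add_distrib, Finset.sum_div]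
      exact Finset.sum_congr rfl fun a _ => by ring
    have hV : ∑ b ∈ Finset.range (2 ^ (t + 1)), V b ^ 2 =
        ∑ b ∈ Finset.range (2 ^ t), V (2 * b) ^ 2 + ∑ b ∈ Finset.range (2 ^ t),
          V (2 * b + 1) ^ 2 := by
      rw [pow_succ', sum_two, ← Finset.sum_add_distrib]
    rw [S_succ, hU, hV]
    set x := S t (fun a => U (2 * a) + U (2 * a + 1)) (fun b => V (2 * b))
    set y := S t (fun a => U (2 * a) - U (2 * a + 1)) (fun b => V (2 * b + 1))
    set α := ∑ a ∈ Finset.range (2 ^ t), (U (2 * a) + U (2 * a + 1)) ^ 2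
    set β := ∑ a ∈ Finset.range (2 ^ t), (U (2 * a) - U (2 * a + 1)) ^ 2
    set γ := ∑ b ∈ Finset.range (2 ^ t), V (2 * b) ^ 2
    set δ := ∑ b ∈ Finset.range (2 ^ t), V (2 * b + 1) ^ 2
    set c : ℝ := 2 ^ t with hc
    have hα : 0 ≤ α := Finset.sum_nonneg fun _ _ => sq_nonneg _
    have hβ : 0 ≤ β := Finset.sum_nonneg fun _ _ => sq_nonneg _
    have hγ : 0 ≤ γ := Finset.sum_nonneg fun _ _ => sq_nonneg _
    have hδ : 0 ≤ δ := Finset.sum_nonneg fun _ _ => sq_nonneg _
    have hc0 : 0 ≤ c := by positivity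
    have h3 : x * y ≤ c * (α * δ + β * γ) / 2 := by
      refine le_of_abs_le (abs_le_of_sq_le_sq ?_ (by positivity))
      have h4 : (x * y) ^ 2 ≤ (c * α * γ) * (c * β * δ) := by
        rw [mul_pow]
        exact mul_le_mul h1 h2 (sq_nonneg _) (by positivity)
      nlinarith [sq_nonneg (c * (α * δ - β * γ))]
    have e : (2 : ℝ) ^ (t + 1) = 2 * c := by
      rw [hc]
      ring
    rw [e]
    have e2 : (x + y) ^ 2 = x ^ 2 + y ^ 2 + 2 * (x * y) := by ring
    have e3 : 2 * c * ((α + β) / 2) * (γ + δ) =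
        c * α * γ + c * β * δ + 2 * (c * (α * δ + β * γ) / 2) := by ring
    rw [e2, e3]
    linarith

theorem had_eq (a b : ℕ) : (had a b : ℝ) = (if a % 2 = b % 2 then 1 else -1) *
    syl (a / 2) (b / 2) := by
  unfold had syl
  split_ifs <;> simp

theorem had00 (a b : ℕ) : (had (2 * a) (2 * b) : ℝ) = syl a b := by
  rw [had_eq]
  simp

theorem had01 (a b : ℕ) : (had (2 * a) (2 * b + 1) : ℝ) = -syl a b := by
  rw [had_eq, show (2 * b + 1) / 2 = b by omega, show 2 * a / 2 = a by omega,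
    if_neg (by omega)]
  ring

theorem had10 (a b : ℕ) : (had (2 * a + 1) (2 * b) : ℝ) = -syl a b := by
  rw [had_eq, show (2 * a + 1) / 2 = a by omega, show 2 * b / 2 = b by omega,
    if_neg (by omega)]
  ring

theorem had11 (a b : ℕ) : (had (2 * a + 1) (2 * b + 1) : ℝ) = syl a b := by
  rw [had_eq, show (2 * a + 1) / 2 = a by omega, show (2 * b + 1) / 2 = b by omega,
    if_pos (by omega)]
  ring

end HadAux

open HadAux in
theorem t_HAD : S_HAD := by
  intro t
  refine ⟨?_, ?_, ?_, ?_⟩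
  · intro a b
    rw [had_eq]
    unfold syl
    split_ifs <;> simp
  · intro a _
    rw [pow_succ', sum_two]
    refine Finset.sum_eq_zero fun b _ => ?_
    obtain ⟨c, rfl | rfl⟩ : ∃ c, a = 2 * c ∨ a = 2 * c + 1 := ⟨a / 2, by omega⟩
    · rw [had00, had01]; ring
    · rw [had10, had11]; ring
  · intro b _
    rw [pow_succ', sum_two]
    refine Finset.sum_eq_zero fun a _ => ?_
    obtain ⟨c, rfl | rfl⟩ : ∃ c, b = 2 * c ∨ b = 2 * c + 1 := ⟨b / 2, by omega⟩
    · rw [had00, had10]; ring
    · rw [had01, had11]; ring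
  · intro u v
    have h1 : ∑ a ∈ Finset.range (2 ^ (t + 1)), ∑ b ∈ Finset.range (2 ^ (t + 1)),
        (had a b : ℝ) * u a * v b =
        S t (fun a => u (2 * a) - u (2 * a + 1)) (fun b => v (2 * b) - v (2 * b + 1)) := by
      unfold S
      rw [pow_succ', sum_two]
      refine Finset.sum_congr rfl fun a _ => ?_
      rw [sum_two, sum_two, ← Finset.sum_add_distrib]
      refine Finset.sum_congr rfl fun b _ => ?_
      rw [had00, had01, had10, had11]
      ring
    have h2 := S_sq t (fun a => u (2 * a) - u (2 * a + 1)) (fun b => v (2 * b) - v (2 * b + 1))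
    have h3 : ∀ w : ℕ → ℝ, ∑ a ∈ Finset.range (2 ^ t), (w (2 * a) - w (2 * a + 1)) ^ 2 ≤
        2 * ∑ a ∈ Finset.range (2 ^ (t + 1)), w a ^ 2 := by
      intro w
      rw [pow_succ', sum_two, Finset.mul_sum]
      refine Finset.sum_le_sum fun a _ => ?_
      nlinarith [sq_nonneg (w (2 * a) + w (2 * a + 1))]
    rw [h1]
    set x := S t (fun a => u (2 * a) - u (2 * a + 1)) (fun b => v (2 * b) - v (2 * b + 1))
    set A := ∑ a ∈ Finset.range (2 ^ (t + 1)), u a ^ 2
    set B := ∑ b ∈ Finset.range (2 ^ (t + 1)), v b ^ 2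
    have hA : 0 ≤ A := Finset.sum_nonneg fun _ _ => sq_nonneg _
    have hB : 0 ≤ B := Finset.sum_nonneg fun _ _ => sq_nonneg _
    rw [← Real.sqrt_mul (by positivity), ← Real.sqrt_mul (by positivity)]
    refine Real.abs_le_sqrt ?_
    refine h2.trans ?_
    have h4 := h3 u
    have h5 := h3 v
    have h6 : (0 : ℝ) ≤ ∑ b ∈ Finset.range (2 ^ t), (v (2 * b) - v (2 * b + 1)) ^ 2 :=
      Finset.sum_nonneg fun _ _ => sq_nonneg _
    calc (2 : ℝ) ^ t * (∑ a ∈ Finset.range (2 ^ t), (u (2 * a) - u (2 * a + 1)) ^ 2) *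
          ∑ b ∈ Finset.range (2 ^ t), (v (2 * b) - v (2 * b + 1)) ^ 2
        ≤ 2 ^ t * (2 * A) * (2 * B) := by
          refine mul_le_mul (mul_le_mul_of_nonneg_left h4 (by positivity)) h5 h6 (by positivity)
      _ = 2 * ((2 ^ (t + 1) : ℕ) : ℝ) * A * B := by
          push_cast
          ring

end Pool.Agent.NPC.R537LR
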