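import Mathlib

set_option autoImplicit false

/-!
# Power sums of `l`-sequences

`U n` is the polynomial in `l` whose value is the `n`-th term of the `l`-sequence
`u 0 = 0`, `u 1 = 1`, `u (n+2) = l u (n+1) - u n`.
-/

open Polynomial Finset

namespace Pool.Agent.R437.LSeq

/-- the polynomials of the `l`-sequence -/
noncomputable def U (R : Type) [CommRing R] : ℕ → R[X]
  | 0 => 0
  | 1 => 1
  | (n + 2) => X * U R (n + 1) - U R n

section basic

variable {R : Type} [CommRing R]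

@[simp] theorem U_zero : U R 0 = 0 := rfl
@[simp] theorem U_one : U R 1 = 1 := rfl
theorem U_succ (n : ℕ) : U R (n + 2) = X * U R (n + 1) - U R n := rfl

theorem map_U {S : Type} [CommRing S] (f : R →+* S) (n : ℕ) : (U R n).map f = U S n := by
  induction n using Nat.twoStepInduction with
  | zero => simp
  | one => simp
  | more n ih1 ih2 => rw [U_succ, U_succ, Polynomial.map_sub, Polynomial.map_mul, map_X, ih1, ih2]

/-- closed form -/
theorem eval_U {a b : R} (hab : a * b = 1) (n : ℕ) :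
    (U R n).eval (a + b) * (a - b) = a ^ n - b ^ n := by
  induction n using Nat.twoStepInduction with
  | zero => simp
  | one => simp
  | more n ih1 ih2 =>
    rw [U_succ, eval_sub, eval_mul, eval_X]
    have e1 : a ^ (n + 2) = a * a ^ (n + 1) := by ring
    have e2 : b ^ (n + 2) = b * b ^ (n + 1) := by ring
    have e3 : b * a ^ (n + 1) = a ^ n := by
      calc b * a ^ (n + 1) = (a * b) * a ^ n := by ring
        _ = a ^ n := by rw [hab, one_mul]
    have e4 : a * b ^ (n + 1) = b ^ n := by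
      calc a * b ^ (n + 1) = (a * b) * b ^ n := by ring
        _ = b ^ n := by rw [hab, one_mul]
    linear_combination (a + b) * ih2 - ih1 + e3 - e4 - e1 + e2

theorem deriv_U (n : ℕ) :
    (X ^ 2 - 4) * derivative (U R n) =
      2 * (n : R[X]) * U R (n + 1) - ((n : R[X]) + 1) * X * U R n := by
  induction n using Nat.twoStepInduction with
  | zero => simp
  | one => simp [U_succ]; ring
  | more n ih1 ih2 =>
    have h3 : U R (n + 3) = X * U R (n + 2) - U R (n + 1) := U_succ (n + 1)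
    have h2 : U R (n + 2) = X * U R (n + 1) - U R n := U_succ n
    have hd : derivative (U R (n + 2)) =
        U R (n + 1) + X * derivative (U R (n + 1)) - derivative (U R n) := by
      rw [h2, derivative_sub, derivative_mul, derivative_X, one_mul]
    rw [hd, show n + 2 + 1 = n + 3 from rfl, h3]
    push_cast at ih1 ih2 ⊢
    rw [h2] at ih2 ⊢
    linear_combination X * ih2 - ih1

/-- `U n (2 U (n+1) - X U n) = X U n (X² - 2)` -/
theorem double (n : ℕ) :
    U R n * (2 * U R (n + 1) - X * U R n) = X * (U R n).comp (X ^ 2 - 2) := by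
  induction n using Nat.twoStepInduction with
  | zero => simp
  | one => simp [U_succ]; ring
  | more n ih1 ih2 =>
    have h3 : U R (n + 3) = X * U R (n + 2) - U R (n + 1) := U_succ (n + 1)
    have h2 : U R (n + 2) = X * U R (n + 1) - U R n := U_succ n
    have hc : (U R (n + 2)).comp (X ^ 2 - 2) =
        (X ^ 2 - 2) * (U R (n + 1)).comp (X ^ 2 - 2) - (U R n).comp (X ^ 2 - 2) := by
      rw [h2, sub_comp, mul_comp, X_comp]
    rw [hc, show n + 2 + 1 = n + 3 from rfl, h3]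
    rw [show n + 1 + 1 = n + 2 from rfl] at ih2
    rw [h2] at ih2 ⊢
    linear_combination (X ^ 2 - 2) * ih2 - ih1

theorem sum_double (n : ℕ) :
    U R n * U R (n + 1) = X * (∑ i ∈ Icc 1 n, U R i).comp (X ^ 2 - 2) := by
  induction n with
  | zero => simp
  | succ n ih =>
    rw [Finset.sum_Icc_succ_top (by omega), add_comp, mul_add, ← ih, ← double,
      show n + 1 + 1 = n + 2 from rfl, U_succ]
    ring

end basic

theorem monic_U_aux (R : Type) [CommRing R] [Nontrivial R] (n : ℕ) :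
    (U R (n + 1)).Monic ∧ (U R (n + 1)).natDegree = n ∧ (U R n).degree < n := by
  induction n with
  | zero => simp
  | succ n ih =>
    obtain ⟨h1, h2, h3⟩ := ih
    have hd : (U R (n + 1)).degree = n := by
      rw [degree_eq_natDegree h1.ne_zero, h2]
    have hXm : (X * U R (n + 1)).Monic := monic_X.mul h1
    have hXd : (X * U R (n + 1)).degree = ((n + 1 : ℕ) : WithBot ℕ) := by
      rw [degree_eq_natDegree hXm.ne_zero, monic_X.natDegree_mul h1, h2, natDegree_X, add_comm]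
    have hlt : (U R n).degree < (X * U R (n + 1)).degree := by
      rw [hXd]
      refine h3.trans ?_
      exact_mod_cast Nat.lt_succ_self n
    refine ⟨?_, ?_, ?_⟩
    · rw [show n + 1 + 1 = n + 2 from rfl, U_succ]
      exact hXm.sub_of_left hlt
    · rw [show n + 1 + 1 = n + 2 from rfl, U_succ]
      apply natDegree_eq_of_degree_eq_some
      rw [degree_sub_eq_left_of_degree_lt hlt, hXd]
    · rw [hd]
      exact_mod_cast Nat.lt_succ_self n

theorem monic_U (R : Type) [CommRing R] [Nontrivial R] {n : ℕ} (hn : 1 ≤ n) : (U R n).Monic := by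
  obtain ⟨m, rfl⟩ : ∃ m, n = m + 1 := ⟨n - 1, by omega⟩
  exact (monic_U_aux R m).1

theorem monic_sum (R : Type) [CommRing R] [Nontrivial R] (n : ℕ) :
    (∑ i ∈ Icc 1 (n + 1), U R i).Monic ∧ (∑ i ∈ Icc 1 n, U R i).degree < n := by
  induction n with
  | zero => simp
  | succ n ih =>
    obtain ⟨h1, h2⟩ := ih
    have h3 : (∑ i ∈ Icc 1 (n + 1), U R i).degree < ((n + 1 : ℕ) : WithBot ℕ) := by
      rw [Finset.sum_Icc_succ_top (by omega)]
      refine lt_of_le_of_lt (degree_add_le _ _) (max_lt ?_ ?_)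
      · exact h2.trans (by exact_mod_cast Nat.lt_succ_self n)
      · exact (monic_U_aux R (n + 1)).2.2
    refine ⟨?_, h3⟩
    rw [Finset.sum_Icc_succ_top (by omega), add_comm]
    refine (monic_U_aux R (n + 1)).1.add_of_left ?_
    have : (U R (n + 1 + 1)).degree = ((n + 1 : ℕ) : WithBot ℕ) := by
      rw [degree_eq_natDegree (monic_U_aux R (n + 1)).1.ne_zero, (monic_U_aux R (n + 1)).2.1]
    rw [this]
    exact h3


theorem cassini {R : Type} [CommRing R] (n : ℕ) :
    U R (n + 1) ^ 2 - U R n * U R (n + 2) = 1 := by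
  induction n with
  | zero => simp
  | succ n ih =>
    have h3 : U R (n + 3) = X * U R (n + 2) - U R (n + 1) := U_succ (n + 1)
    have h2 : U R (n + 2) = X * U R (n + 1) - U R n := U_succ n
    rw [show n + 1 + 1 = n + 2 from rfl, show n + 1 + 2 = n + 3 from rfl, h3]
    rw [h2] at ih ⊢
    linear_combination ih

theorem succ_ne_zero {x : ℂ} {n : ℕ} (h : (U ℂ n).eval x = 0) : (U ℂ (n + 1)).eval x ≠ 0 := by
  intro h1
  have h2 := congrArg (Polynomial.eval x) (cassini (R := ℂ) n)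
  rw [eval_sub, eval_pow, eval_mul, h, h1] at h2
  simp at h2

theorem deriv_ne_zero {x : ℂ} {n : ℕ} (hn : 1 ≤ n) (h : (U ℂ n).eval x = 0) :
    (x ^ 2 - 4) * (derivative (U ℂ n)).eval x ≠ 0 := by
  have h2 := congrArg (Polynomial.eval x) (deriv_U (R := ℂ) n)
  simp only [eval_sub, eval_mul, eval_pow, eval_X, eval_add, eval_natCast, eval_one, h, mul_zero,
    sub_zero] at h2
  have e4 : (4 : ℂ[X]).eval x = 4 := by
    rw [show (4 : ℂ[X]) = ((4 : ℕ) : ℂ[X]) by norm_cast, eval_natCast]; norm_num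
  have e2 : (2 : ℂ[X]).eval x = 2 := by
    rw [show (2 : ℂ[X]) = ((2 : ℕ) : ℂ[X]) by norm_cast, eval_natCast]; norm_num
  rw [e4, e2] at h2
  rw [h2]
  have hn' : (n : ℂ) ≠ 0 := by exact_mod_cast (by omega : n ≠ 0)
  exact mul_ne_zero (mul_ne_zero two_ne_zero hn') (succ_ne_zero h)

theorem rootMult_le {x : ℂ} {n : ℕ} (hn : 1 ≤ n) :
    rootMultiplicity x (U ℂ n) ≤ if (U ℂ n).eval x = 0 then 1 else 0 := by
  have h0 : U ℂ n ≠ 0 := (monic_U ℂ hn).ne_zero
  split_ifs with h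
  · by_contra hlt
    rw [not_le, one_lt_rootMultiplicity_iff_isRoot h0] at hlt
    have := deriv_ne_zero hn h
    rw [show (derivative (U ℂ n)).eval x = 0 from hlt.2] at this
    simp at this
  · rw [rootMultiplicity_eq_zero h]

theorem exists_ab (x : ℂ) : ∃ a b : ℂ, a * b = 1 ∧ a + b = x := by
  obtain ⟨s, hs⟩ := IsAlgClosed.exists_pow_nat_eq (x ^ 2 - 4) (n := 2) (by norm_num)
  refine ⟨(x + s) / 2, (x - s) / 2, ?_, by ring⟩
  linear_combination (-1 / 4) * hs

theorem ne_of_root {a b : ℂ} {n : ℕ} (hn : 1 ≤ n) (hab : a * b = 1)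
    (h : (U ℂ n).eval (a + b) = 0) : a ≠ b := by
  intro hc
  have h1 := deriv_ne_zero hn h
  have h2 : (a + b) ^ 2 - 4 = 0 := by
    linear_combination (a - b) * hc + 4 * hab
  rw [h2, zero_mul] at h1
  exact h1 rfl

theorem eval_eq {a b : ℂ} (hab : a * b = 1) (hne : a ≠ b) (n : ℕ) :
    (U ℂ n).eval (a + b) = (a ^ n - b ^ n) / (a - b) := by
  rw [eq_div_iff (sub_ne_zero.2 hne)]
  exact eval_U hab n

theorem zero_iff {a b : ℂ} (hab : a * b = 1) (hne : a ≠ b) (n : ℕ) :
    (U ℂ n).eval (a + b) = 0 ↔ a ^ (2 * n) = 1 := by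
  rw [eval_eq hab hne, div_eq_zero_iff, or_iff_left (sub_ne_zero.2 hne), sub_eq_zero]
  have h1 : a ^ n * b ^ n = 1 := by rw [← mul_pow, hab, one_pow]
  constructor
  · intro h
    rw [two_mul, pow_add]
    nth_rewrite 2 [h]
    exact h1
  · intro h
    have h2 : a ^ n * a ^ n = a ^ n * b ^ n := by rw [h1, ← pow_add, ← two_mul, h]
    have h3 : a ^ n ≠ 0 := left_ne_zero_of_mul_eq_one h1
    exact mul_left_cancel₀ h3 h2

theorem refl_eval {a b : ℂ} (hab : a * b = 1) (hne : a ≠ b) {m i : ℕ} (hm : a ^ m = 1)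
    (hi : i ≤ m) : (U ℂ (m - i)).eval (a + b) = - (U ℂ i).eval (a + b) := by
  have hb : b ^ m = 1 := by
    have : a ^ m * b ^ m = 1 := by rw [← mul_pow, hab, one_pow]
    rwa [hm, one_mul] at this
  have h1 : a ^ i * b ^ i = 1 := by rw [← mul_pow, hab, one_pow]
  have ha : a ^ (m - i) = b ^ i := by
    have h3 : a ^ i ≠ 0 := left_ne_zero_of_mul_eq_one h1
    apply mul_left_cancel₀ h3
    rw [h1, ← pow_add, Nat.add_sub_cancel' hi, hm]
  have hb' : b ^ (m - i) = a ^ i := by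
    have h3 : b ^ i ≠ 0 := right_ne_zero_of_mul_eq_one h1
    apply mul_left_cancel₀ h3
    rw [← pow_add, Nat.add_sub_cancel' hi, hb, mul_comm, h1]
  rw [eval_eq hab hne, eval_eq hab hne, ha, hb']
  ring

theorem period_eval {a b : ℂ} (hab : a * b = 1) (hne : a ≠ b) {m : ℕ} (hm : a ^ m = 1) (i : ℕ) :
    (U ℂ (i + m)).eval (a + b) = (U ℂ i).eval (a + b) := by
  have hb : b ^ m = 1 := by
    have : a ^ m * b ^ m = 1 := by rw [← mul_pow, hab, one_pow]
    rwa [hm, one_mul] at this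
  rw [eval_eq hab hne, eval_eq hab hne, pow_add, pow_add, hm, hb, mul_one, mul_one]

/-- (B) -/
theorem sum_refl {a b : ℂ} (hab : a * b = 1) (hne : a ≠ b) {j n k : ℕ} (hk : 1 ≤ k)
    (hm : a ^ (j + n) = 1) :
    ∑ i ∈ Icc j n, (U ℂ i).eval (a + b) ^ (2 * k - 1) = 0 := by
  have h1 : ∑ i ∈ Icc j n, (U ℂ i).eval (a + b) ^ (2 * k - 1) =
      ∑ i ∈ Icc j n, (U ℂ (j + n - i)).eval (a + b) ^ (2 * k - 1) := by
    refine Finset.sum_nbij' (fun i => j + n - i) (fun i => j + n - i) ?_ ?_ ?_ ?_ ?_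
    · intro i hi; rw [mem_Icc] at hi ⊢; omega
    · intro i hi; rw [mem_Icc] at hi ⊢; omega
    · intro i hi; rw [mem_Icc] at hi; omega
    · intro i hi; rw [mem_Icc] at hi; omega
    · intro i hi; rw [mem_Icc] at hi
      rw [show j + n - (j + n - i) = i by omega]
  have h2 : ∑ i ∈ Icc j n, (U ℂ (j + n - i)).eval (a + b) ^ (2 * k - 1) =
      - ∑ i ∈ Icc j n, (U ℂ i).eval (a + b) ^ (2 * k - 1) := by
    rw [← Finset.sum_neg_distrib]
    refine Finset.sum_congr rfl fun i hi => ?_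
    rw [mem_Icc] at hi
    rw [refl_eval hab hne hm (by omega), Odd.neg_pow ⟨k - 1, by omega⟩]
  rw [h2] at h1
  have h3 : (2 : ℂ) * ∑ i ∈ Icc j n, (U ℂ i).eval (a + b) ^ (2 * k - 1) = 0 := by
    linear_combination h1
  exact (mul_eq_zero.1 h3).resolve_left two_ne_zero

theorem range_period {a b : ℂ} (hab : a * b = 1) (hne : a ≠ b) {H k : ℕ} (hk : 1 ≤ k)
    (hH : a ^ H = 1) (s : ℕ) :
    ∑ i ∈ range (s + H), (U ℂ i).eval (a + b) ^ (2 * k - 1) =
      ∑ i ∈ range s, (U ℂ i).eval (a + b) ^ (2 * k - 1) := by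
  induction s with
  | zero =>
    rcases Nat.eq_zero_or_pos H with rfl | hpos
    · simp
    · obtain ⟨h, rfl⟩ : ∃ h, H = h + 1 := ⟨H - 1, by omega⟩
      rw [zero_add, Finset.sum_range_succ', Finset.sum_range_zero]
      have h1 := sum_refl hab hne (j := 1) (n := h) hk (by rw [add_comm]; exact hH)
      have h2 : ∑ i ∈ Icc 1 h, (U ℂ i).eval (a + b) ^ (2 * k - 1) =
          ∑ i ∈ range h, (U ℂ (i + 1)).eval (a + b) ^ (2 * k - 1) := by
        rw [Finset.range_eq_Ico, Finset.sum_Ico_add' (fun i => (U ℂ i).eval (a + b) ^ (2 * k - 1))]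
        rfl
      rw [← h2, h1, U_zero, eval_zero, zero_pow (by omega), add_zero]
  | succ s ih =>
    rw [show s + 1 + H = (s + H) + 1 by ring, Finset.sum_range_succ, ih, Finset.sum_range_succ,
      period_eval hab hne hH]

theorem range_period_mul {a b : ℂ} (hab : a * b = 1) (hne : a ≠ b) {H k : ℕ} (hk : 1 ≤ k)
    (hH : a ^ H = 1) (s : ℕ) :
    ∑ i ∈ range (s + H), (U ℂ i).eval (a + b) ^ (2 * k - 1) =
      ∑ i ∈ range s, (U ℂ i).eval (a + b) ^ (2 * k - 1) := range_period hab hne hk hH s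

/-- (A) -/
theorem sum_period {a b : ℂ} (hab : a * b = 1) (hne : a ≠ b) {j n k : ℕ} (hk : 1 ≤ k)
    (hj : j ≤ n + 1) (hm : a ^ (n + 1 - j) = 1) :
    ∑ i ∈ Icc j n, (U ℂ i).eval (a + b) ^ (2 * k - 1) = 0 := by
  have h1 := range_period hab hne hk hm j
  rw [Nat.add_sub_cancel' hj] at h1
  have h2 : ∑ i ∈ Icc j n, (U ℂ i).eval (a + b) ^ (2 * k - 1) =
      ∑ i ∈ range (n + 1), (U ℂ i).eval (a + b) ^ (2 * k - 1) -
      ∑ i ∈ range j, (U ℂ i).eval (a + b) ^ (2 * k - 1) := by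
    rw [← Finset.sum_Ico_eq_sub _ hj]
    rfl
  rw [h2, h1, sub_self]

open Classical in
/-- the counting lemma -/
theorem card_le (x : ℂ) (n : ℕ) {k : ℕ} (hk : 1 ≤ k) :
    ((Icc 1 n).filter fun j => (U ℂ j).eval x = 0).card ≤
      ((Icc 1 n).filter fun j => ∑ i ∈ Icc j n, (U ℂ i).eval x ^ (2 * k - 1) = 0).card := by
  rcases ((Icc 1 n).filter fun j => (U ℂ j).eval x = 0).eq_empty_or_nonempty with he | ⟨j₀, hj₀⟩
  · rw [he]; simp
  rw [mem_filter, mem_Icc] at hj₀
  obtain ⟨a, b, hab, rfl⟩ := exists_ab x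
  have hne := ne_of_root hj₀.1.1 hab hj₀.2
  set H := orderOf a with hHdef
  have hdv : ∀ m, a ^ m = 1 ↔ H ∣ m := fun m => (orderOf_dvd_iff_pow_eq_one).symm
  have hz : ∀ j, (U ℂ j).eval (a + b) = 0 ↔ H ∣ 2 * j := fun j => by
    rw [zero_iff hab hne, hdv]
  rcases Nat.even_or_odd H with hev | hodd
  · apply Finset.card_le_card_of_injOn (fun j => if 2 * j ≤ n then n + 1 - 2 * j else 2 * j - n)
    · intro j hj
      rw [mem_coe, mem_filter, mem_Icc, hz] at hj
      rw [mem_coe, mem_filter, mem_Icc]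
      dsimp only
      split_ifs with h
      · refine ⟨by omega, sum_period hab hne hk (by omega) ?_⟩
        rw [show n + 1 - (n + 1 - 2 * j) = 2 * j by omega, hdv]
        exact hj.2
      · refine ⟨by omega, sum_refl hab hne hk ?_⟩
        rw [show 2 * j - n + n = 2 * j by omega, hdv]
        exact hj.2
    · intro j hj j' hj' he
      rw [mem_coe, mem_filter, mem_Icc] at hj hj'
      dsimp only at he
      split_ifs at he with h1 h2 h2 <;> omega
  · apply Finset.card_le_card_of_injOn (fun j => n + 1 - j)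
    · intro j hj
      rw [mem_coe, mem_filter, mem_Icc, hz] at hj
      rw [mem_coe, mem_filter, mem_Icc]
      dsimp only
      refine ⟨by omega, sum_period hab hne hk (by omega) ?_⟩
      rw [show n + 1 - (n + 1 - j) = j by omega, hdv]
      have hc : Nat.Coprime H 2 := hodd.coprime_two_right
      exact hc.dvd_of_dvd_mul_left hj.2
    · intro j hj j' hj' he
      rw [mem_coe, mem_filter, mem_Icc] at hj hj'
      dsimp only at he
      omega


theorem eval_two (R : Type) [CommRing R] (n : ℕ) : (U R n).eval 2 = n := by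
  induction n using Nat.twoStepInduction with
  | zero => simp
  | one => simp
  | more n ih1 ih2 =>
    rw [U_succ, eval_sub, eval_mul, eval_X, ih1, ih2]
    push_cast
    ring

theorem sum_ne_zero {j n : ℕ} (h1 : 1 ≤ j) (h : j ≤ n) (k : ℕ) :
    ∑ i ∈ Icc j n, (U ℂ i) ^ (2 * k - 1) ≠ 0 := by
  intro hc
  have h2 := congrArg (Polynomial.eval 2) hc
  simp only [eval_finsetSum, eval_pow, eval_two, eval_zero] at h2
  have h3 : ((∑ i ∈ Icc j n, i ^ (2 * k - 1) : ℕ) : ℂ) = 0 := by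
    push_cast
    exact h2
  rw [Nat.cast_eq_zero, Finset.sum_eq_zero_iff] at h3
  have h4 := h3 n (mem_Icc.2 ⟨h, le_rfl⟩)
  have h5 : 0 < n ^ (2 * k - 1) := pow_pos (by omega) _
  omega

theorem dvdC (n : ℕ) {k : ℕ} (hk : 1 ≤ k) :
    ∏ j ∈ Icc 1 n, U ℂ j ∣ ∏ j ∈ Icc 1 n, ∑ i ∈ Icc j n, (U ℂ i) ^ (2 * k - 1) := by
  classical
  have hp : ∏ j ∈ Icc 1 n, U ℂ j ≠ 0 :=
    Finset.prod_ne_zero_iff.2 fun j hj => (monic_U ℂ (mem_Icc.1 hj).1).ne_zero
  have hq : ∏ j ∈ Icc 1 n, ∑ i ∈ Icc j n, (U ℂ i) ^ (2 * k - 1) ≠ 0 :=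
    Finset.prod_ne_zero_iff.2 fun j hj => sum_ne_zero (mem_Icc.1 hj).1 (mem_Icc.1 hj).2 k
  rw [IsAlgClosed.dvd_iff_roots_le_roots hp hq, Multiset.le_iff_count]
  intro x
  rw [roots_prod _ _ hp, roots_prod _ _ hq, Multiset.count_bind, Multiset.count_bind]
  have e1 : (Multiset.map (fun b => Multiset.count x (U ℂ b).roots) (Icc 1 n).val).sum =
      ∑ j ∈ Icc 1 n, rootMultiplicity x (U ℂ j) := by
    simp only [count_roots]
    rfl
  have e2 : (Multiset.map (fun b => Multiset.count x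
      (∑ i ∈ Icc b n, (U ℂ i) ^ (2 * k - 1)).roots) (Icc 1 n).val).sum =
      ∑ j ∈ Icc 1 n, rootMultiplicity x (∑ i ∈ Icc j n, (U ℂ i) ^ (2 * k - 1)) := by
    simp only [count_roots]
    rfl
  rw [e1, e2]
  calc ∑ j ∈ Icc 1 n, rootMultiplicity x (U ℂ j)
      ≤ ∑ j ∈ Icc 1 n, if (U ℂ j).eval x = 0 then 1 else 0 :=
        Finset.sum_le_sum fun j hj => rootMult_le (mem_Icc.1 hj).1
    _ = ((Icc 1 n).filter fun j => (U ℂ j).eval x = 0).card := by
        rw [Finset.card_filter]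
    _ ≤ ((Icc 1 n).filter fun j => ∑ i ∈ Icc j n, (U ℂ i).eval x ^ (2 * k - 1) = 0).card :=
        card_le x n hk
    _ = ∑ j ∈ Icc 1 n, if ∑ i ∈ Icc j n, (U ℂ i).eval x ^ (2 * k - 1) = 0 then 1 else 0 := by
        rw [Finset.card_filter]
    _ ≤ ∑ j ∈ Icc 1 n, rootMultiplicity x (∑ i ∈ Icc j n, (U ℂ i) ^ (2 * k - 1)) := by
        refine Finset.sum_le_sum fun j hj => ?_
        split_ifs with h
        · have h1 : 0 < rootMultiplicity x (∑ i ∈ Icc j n, (U ℂ i) ^ (2 * k - 1)) := by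
            rw [rootMultiplicity_pos (sum_ne_zero (mem_Icc.1 hj).1 (mem_Icc.1 hj).2 k), IsRoot.def,
              eval_finsetSum]
            simp only [eval_pow]
            exact h
          omega
        · exact Nat.zero_le _

/-- the polynomial form of the divisibility (P) over the integers -/
theorem dvdZ (n : ℕ) {k : ℕ} (hk : 1 ≤ k) :
    ∏ j ∈ Icc 1 n, U ℤ j ∣ ∏ j ∈ Icc 1 n, ∑ i ∈ Icc j n, (U ℤ i) ^ (2 * k - 1) := by
  have hm : (∏ j ∈ Icc 1 n, U ℤ j).Monic :=
    monic_prod_of_monic _ _ fun j hj => monic_U ℤ (mem_Icc.1 hj).1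
  rw [← map_dvd_map (Int.castRingHom ℂ) Int.cast_injective hm]
  simpa only [Polynomial.map_prod, Polynomial.map_sum, Polynomial.map_pow, map_U] using dvdC n hk

/-- alternating sum -/
theorem eval_neg_two (n : ℕ) :
    4 * (∑ i ∈ Icc 1 n, U ℂ i).eval (-2) = 1 - (-1) ^ n * (2 * n + 1) := by
  have h : ∀ m : ℕ, (U ℂ m).eval (-2) = - (-1) ^ m * m := by
    intro m
    induction m using Nat.twoStepInduction with
    | zero => simp
    | one => simp
    | more m ih1 ih2 =>
      rw [U_succ, eval_sub, eval_mul, eval_X, ih1, ih2]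
      push_cast
      ring
  induction n with
  | zero => simp
  | succ n ih =>
    rw [Finset.sum_Icc_succ_top (by omega), eval_add, mul_add, ih, h]
    push_cast
    ring

theorem sum_eval_neg_two_ne (n : ℕ) (hn : 1 ≤ n) : (∑ i ∈ Icc 1 n, U ℂ i).eval (-2) ≠ 0 := by
  intro hc
  have h := eval_neg_two n
  rw [hc, mul_zero] at h
  rcases Nat.even_or_odd n with he | ho
  · rw [he.neg_one_pow] at h
    have h1 : (n : ℂ) = 0 := by linear_combination (1 / 2) * h
    have : n = 0 := by exact_mod_cast h1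
    omega
  · rw [ho.neg_one_pow] at h
    have h1 : ((n + 1 : ℕ) : ℂ) = 0 := by push_cast; linear_combination (-1 / 2) * h
    have : n + 1 = 0 := by exact_mod_cast h1
    omega

theorem sum_eval_two_ne (n : ℕ) (hn : 1 ≤ n) : (∑ i ∈ Icc 1 n, U ℂ i).eval 2 ≠ 0 := by
  intro hc
  rw [eval_finsetSum] at hc
  simp only [eval_two] at hc
  have h3 : ((∑ i ∈ Icc 1 n, i : ℕ) : ℂ) = 0 := by
    push_cast
    exact hc
  rw [Nat.cast_eq_zero, Finset.sum_eq_zero_iff] at h3
  have := h3 1 (mem_Icc.2 ⟨le_rfl, hn⟩)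
  omega

/-- `λ² = x + 2` -/
theorem sum_root_simple {n : ℕ} (hn : 1 ≤ n) {x : ℂ}
    (h : (∑ i ∈ Icc 1 n, U ℂ i).eval x = 0) :
    (derivative (∑ i ∈ Icc 1 n, U ℂ i)).eval x ≠ 0 := by
  obtain ⟨l, hl⟩ := IsAlgClosed.exists_pow_nat_eq (x + 2) (n := 2) (by norm_num)
  intro hd
  have h1 := sum_double (R := ℂ) n
  have e2 : (2 : ℂ[X]).eval l = 2 := by
    rw [show (2 : ℂ[X]) = ((2 : ℕ) : ℂ[X]) by norm_cast, eval_natCast]; norm_num
  have hx : (X ^ 2 - 2 : ℂ[X]).eval l = x := by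
    rw [eval_sub, eval_pow, eval_X, e2]
    linear_combination hl
  have h2 := congrArg (Polynomial.eval l) h1
  rw [eval_mul, eval_mul, eval_comp, hx, h, mul_zero] at h2
  have h3 := congrArg (fun p => (derivative p).eval l) h1
  simp only [derivative_mul, derivative_X, one_mul, derivative_comp, eval_add, eval_mul, eval_comp,
    hx, h, hd, mul_zero, add_zero] at h3
  rcases mul_eq_zero.1 h2 with h4 | h4
  · rw [h4, zero_mul, add_zero] at h3
    have h5 := deriv_ne_zero hn h4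
    rcases mul_eq_zero.1 h3 with h6 | h6
    · rw [h6, mul_zero] at h5; exact h5 rfl
    · exact succ_ne_zero h4 h6
  · rw [h4, mul_zero, zero_add] at h3
    have h5 := deriv_ne_zero (by omega) h4
    rcases mul_eq_zero.1 h3 with h6 | h6
    · exact succ_ne_zero h6 h4
    · rw [h6, mul_zero] at h5; exact h5 rfl

theorem sum_root {n k : ℕ} (hn : 1 ≤ n) (hk : 1 ≤ k) {x : ℂ}
    (h : (∑ i ∈ Icc 1 n, U ℂ i).eval x = 0) :
    ∑ i ∈ Icc 1 n, (U ℂ i).eval x ^ (2 * k - 1) = 0 := by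
  obtain ⟨l, hl⟩ := IsAlgClosed.exists_pow_nat_eq (x + 2) (n := 2) (by norm_num)
  obtain ⟨c, d, hcd, rfl⟩ := exists_ab l
  have h1 := sum_double (R := ℂ) n
  have e2 : (2 : ℂ[X]).eval (c + d) = 2 := by
    rw [show (2 : ℂ[X]) = ((2 : ℕ) : ℂ[X]) by norm_cast, eval_natCast]; norm_num
  have hx : (X ^ 2 - 2 : ℂ[X]).eval (c + d) = x := by
    rw [eval_sub, eval_pow, eval_X, e2]
    linear_combination hl
  have h2 := congrArg (Polynomial.eval (c + d)) h1
  rw [eval_mul, eval_mul, eval_comp, hx, h, mul_zero] at h2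
  -- a = c ^ 2, b = d ^ 2
  have hab : c ^ 2 * d ^ 2 = 1 := by rw [← mul_pow, hcd, one_pow]
  have hxab : x = c ^ 2 + d ^ 2 := by linear_combination -hl + 2 * hcd
  have hne : c ^ 2 ≠ d ^ 2 := by
    intro he
    have h3 : (x - 2) * (x + 2) = 0 := by
      rw [hxab]
      linear_combination (c ^ 2 - d ^ 2) * he + 4 * hab
    rcases mul_eq_zero.1 h3 with h4 | h4
    · rw [sub_eq_zero.1 h4] at h
      exact sum_eval_two_ne n hn h
    · rw [eq_neg_of_add_eq_zero_left h4] at h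
      exact sum_eval_neg_two_ne n hn h
  rcases mul_eq_zero.1 h2 with h4 | h4
  · have hcne := ne_of_root hn hcd h4
    rw [zero_iff hcd hcne] at h4
    rw [hxab]
    refine sum_period hab hne hk (by omega) ?_
    rw [show n + 1 - 1 = n by omega, ← pow_mul]
    exact h4
  · have hcne := ne_of_root (by omega) hcd h4
    rw [zero_iff hcd hcne] at h4
    rw [hxab]
    refine sum_refl hab hne hk ?_
    rw [← pow_mul, show 2 * (1 + n) = 2 * (n + 1) by ring]
    exact h4

theorem dvdC' {n k : ℕ} (hn : 1 ≤ n) (hk : 1 ≤ k) :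
    ∑ i ∈ Icc 1 n, U ℂ i ∣ ∑ i ∈ Icc 1 n, (U ℂ i) ^ (2 * k - 1) := by
  classical
  obtain ⟨m, rfl⟩ : ∃ m, n = m + 1 := ⟨n - 1, by omega⟩
  have hp : ∑ i ∈ Icc 1 (m + 1), U ℂ i ≠ 0 := (monic_sum ℂ m).1.ne_zero
  have hq := sum_ne_zero (j := 1) le_rfl hn k
  rw [IsAlgClosed.dvd_iff_roots_le_roots hp hq, Multiset.le_iff_count]
  intro x
  rw [count_roots, count_roots]
  by_cases h : (∑ i ∈ Icc 1 (m + 1), U ℂ i).eval x = 0
  · have h1 : rootMultiplicity x (∑ i ∈ Icc 1 (m + 1), U ℂ i) ≤ 1 := by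
      by_contra hlt
      rw [not_le, one_lt_rootMultiplicity_iff_isRoot hp] at hlt
      exact sum_root_simple hn h hlt.2
    have h2 : 0 < rootMultiplicity x (∑ i ∈ Icc 1 (m + 1), (U ℂ i) ^ (2 * k - 1)) := by
      rw [rootMultiplicity_pos hq, IsRoot.def, eval_finsetSum]
      simp only [eval_pow]
      exact sum_root hn hk h
    omega
  · rw [rootMultiplicity_eq_zero h]
    exact Nat.zero_le _

theorem dvdZ' {n k : ℕ} (hn : 1 ≤ n) (hk : 1 ≤ k) :
    ∑ i ∈ Icc 1 n, U ℤ i ∣ ∑ i ∈ Icc 1 n, (U ℤ i) ^ (2 * k - 1) := by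
  have hm : (∑ i ∈ Icc 1 n, U ℤ i).Monic := by
    obtain ⟨m, rfl⟩ : ∃ m, n = m + 1 := ⟨n - 1, by omega⟩
    exact (monic_sum ℤ m).1
  rw [← map_dvd_map (Int.castRingHom ℂ) Int.cast_injective hm]
  simpa only [Polynomial.map_sum, Polynomial.map_pow, map_U] using dvdC' hn hk

end Pool.Agent.R437.LSeq
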