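import Mathlib

set_option autoImplicit false

/-!
# The LCM sequence of a strong divisibility sequence
-/

open Finset

namespace Pool.Agent.R437.SDiv

/-- distributivity -/
theorem gcd_lcm_dist {x y z : ℕ} (hx : x ≠ 0) (hy : y ≠ 0) (hz : z ≠ 0) :
    Nat.gcd (Nat.lcm x y) z = Nat.lcm (Nat.gcd x z) (Nat.gcd y z) := by
  have h1 : Nat.lcm x y ≠ 0 := Nat.lcm_ne_zero hx hy
  have h2 : Nat.gcd x z ≠ 0 := Nat.gcd_ne_zero_left hx
  have h3 : Nat.gcd y z ≠ 0 := Nat.gcd_ne_zero_left hy
  apply Nat.eq_of_factorization_eq (Nat.gcd_ne_zero_left h1) (Nat.lcm_ne_zero h2 h3)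
  intro p
  rw [Nat.factorization_gcd h1 hz, Nat.factorization_lcm hx hy, Nat.factorization_lcm h2 h3,
    Nat.factorization_gcd hx hz, Nat.factorization_gcd hy hz]
  simp only [Finsupp.inf_apply, Finsupp.sup_apply]
  omega

/-- the hypotheses on the sequence -/
structure SD (a : ℕ → ℕ) : Prop where
  pos : ∀ n, 1 ≤ n → 0 < a n
  gcd : ∀ m n, 1 ≤ m → 1 ≤ n → Nat.gcd (a m) (a n) = a (Nat.gcd m n)

/-- the primitive part -/
def prim (a : ℕ → ℕ) (d : ℕ) : ℕ := a d / d.properDivisors.lcm a

variable {a : ℕ → ℕ}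

theorem lcm_ne (h : SD a) {S : Finset ℕ} (hS : ∀ s ∈ S, 1 ≤ s) : S.lcm a ≠ 0 := by
  rw [Ne, Finset.lcm_eq_zero_iff]
  rintro ⟨s, hs, h0⟩
  exact absurd h0 (h.pos s (hS s hs)).ne'

theorem dvd_of_dvd (h : SD a) {m n : ℕ} (hm : 1 ≤ m) (hn : 1 ≤ n) (hmn : m ∣ n) : a m ∣ a n := by
  have h1 := h.gcd m n hm hn
  rw [Nat.gcd_eq_left hmn] at h1
  rw [← h1]
  exact Nat.gcd_dvd_right _ _

theorem lcm_proper_dvd (h : SD a) {d : ℕ} (hd : 1 ≤ d) : d.properDivisors.lcm a ∣ a d := by
  apply Finset.lcm_dvd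
  intro e he
  rw [Nat.mem_properDivisors] at he
  exact dvd_of_dvd h (Nat.pos_of_dvd_of_pos he.1 hd) hd he.1

theorem prim_mul (h : SD a) {d : ℕ} (hd : 1 ≤ d) :
    prim a d * d.properDivisors.lcm a = a d := Nat.div_mul_cancel (lcm_proper_dvd h hd)

theorem prim_pos (h : SD a) {d : ℕ} (hd : 1 ≤ d) : 0 < prim a d := by
  rcases Nat.eq_zero_or_pos (prim a d) with h0 | h0
  · have h1 := prim_mul h hd
    rw [h0, zero_mul] at h1
    exact absurd h1.symm (h.pos d hd).ne'
  · exact h0

theorem gcd_lcm (h : SD a) {S : Finset ℕ} (hS : ∀ s ∈ S, 1 ≤ s) {m : ℕ} (hm : 1 ≤ m) :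
    Nat.gcd (S.lcm a) (a m) = (S.image fun s => Nat.gcd s m).lcm a := by
  rw [Finset.lcm_image]
  induction S using Finset.induction_on with
  | empty => simp
  | insert s S hs ih =>
    rw [Finset.lcm_insert, Finset.lcm_insert, ← ih fun t ht => hS t (mem_insert_of_mem ht)]
    have h1 := hS s (mem_insert_self _ _)
    have h2 := lcm_ne h fun t ht => hS t (mem_insert_of_mem (a := t) (b := s) ht)
    have h3 := gcd_lcm_dist (h.pos s h1).ne' h2 (h.pos m hm).ne'
    rw [h.gcd s m h1 hm] at h3
    exact h3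

/-- `a m` is the product of the primitive parts of the divisors of `m` -/
def Base (a : ℕ → ℕ) (m : ℕ) : Prop := a m = ∏ d ∈ m.divisors, prim a d

theorem lcm_eq_prod (h : SD a) (k : ℕ) : ∀ S : Finset ℕ, S.card ≤ k → (∀ s ∈ S, 1 ≤ s) →
    (∀ s ∈ S, ∀ d, d ∣ s → Base a d) → S.lcm a = ∏ d ∈ S.biUnion Nat.divisors, prim a d := by
  induction k with
  | zero =>
    intro S hS _ _
    rw [Nat.le_zero, Finset.card_eq_zero] at hS
    subst hS
    simp
  | succ k ih =>
    intro S hS h1 hB
    rcases S.eq_empty_or_nonempty with rfl | ⟨m, hm⟩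
    · simp
    obtain ⟨T, hmT, rfl⟩ : ∃ T, m ∉ T ∧ insert m T = S := ⟨S.erase m, by simp, by simp [hm]⟩
    rw [Finset.card_insert_of_notMem hmT] at hS
    have hT1 : ∀ s ∈ T, 1 ≤ s := fun s hs => h1 s (mem_insert_of_mem hs)
    have hm1 : 1 ≤ m := h1 m (mem_insert_self _ _)
    have hT := ih T (by omega) hT1 fun s hs => hB s (mem_insert_of_mem hs)
    have hmB : Base a m := hB m (mem_insert_self _ _) m dvd_rfl
    set G := T.image fun s => Nat.gcd s m with hG
    have hG' := ih G (Finset.card_image_le.trans (by omega))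
      (by
        intro g hg
        rw [hG, mem_image] at hg
        obtain ⟨s, hs, rfl⟩ := hg
        exact Nat.gcd_pos_of_pos_left _ (hT1 s hs))
      (by
        intro g hg d hd
        rw [hG, mem_image] at hg
        obtain ⟨s, hs, rfl⟩ := hg
        exact hB s (mem_insert_of_mem hs) d (hd.trans (Nat.gcd_dvd_left _ _)))
    have hGdiv : G.biUnion Nat.divisors = T.biUnion Nat.divisors ∩ m.divisors := by
      ext d
      simp only [hG, mem_biUnion, mem_image, exists_exists_and_eq_and, Nat.mem_divisors, mem_inter]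
      constructor
      · rintro ⟨s, hs, hd, _⟩
        have := hT1 s hs
        exact ⟨⟨s, hs, hd.trans (Nat.gcd_dvd_left _ _), by omega⟩, hd.trans (Nat.gcd_dvd_right _ _),
          by omega⟩
      · rintro ⟨⟨s, hs, hd, h0⟩, hdm, _⟩
        exact ⟨s, hs, Nat.dvd_gcd hd hdm, (Nat.gcd_pos_of_pos_left _ (hT1 s hs)).ne'⟩
    have key : Nat.gcd (a m) (T.lcm a) * Nat.lcm (a m) (T.lcm a) = a m * T.lcm a :=
      Nat.gcd_mul_lcm _ _
    rw [Nat.gcd_comm, gcd_lcm h hT1 hm1, ← hG, hG', hT, hGdiv] at key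
    have hmB' : a m = ∏ d ∈ m.divisors, prim a d := hmB
    have hpos : 0 < ∏ d ∈ T.biUnion Nat.divisors ∩ m.divisors, prim a d := by
      apply Finset.prod_pos
      intro d hd
      rw [mem_inter] at hd
      exact prim_pos h (Nat.pos_of_mem_divisors hd.2)
    rw [Finset.lcm_insert, Finset.biUnion_insert]
    change Nat.lcm (a m) (T.lcm a) = _
    apply Nat.eq_of_mul_eq_mul_left hpos
    rw [hT, key]
    rw [hmB', Finset.union_comm, mul_comm (∏ d ∈ T.biUnion Nat.divisors ∩ m.divisors, prim a d),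
      Finset.prod_union_inter, mul_comm]

theorem base (h : SD a) (m : ℕ) (hm : 1 ≤ m) : Base a m := by
  induction m using Nat.strong_induction_on with
  | _ m ih =>
    unfold Base
    have h1 := lcm_eq_prod h _ m.properDivisors le_rfl
      (fun s hs => Nat.pos_of_mem_properDivisors hs)
      (fun s hs d hd => by
        have h2 := Nat.mem_properDivisors.1 hs
        have h3 : 0 < s := Nat.pos_of_mem_properDivisors hs
        exact ih d (lt_of_le_of_lt (Nat.le_of_dvd h3 hd) h2.2) (Nat.pos_of_dvd_of_pos hd h3))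
    have h2 : m.properDivisors.biUnion Nat.divisors = m.properDivisors := by
      ext d
      rw [mem_biUnion]
      constructor
      · rintro ⟨s, hs, hd⟩
        rw [Nat.mem_properDivisors] at hs ⊢
        have h3 := Nat.divisor_le hd
        exact ⟨(Nat.dvd_of_mem_divisors hd).trans hs.1, by omega⟩
      · intro hd
        exact ⟨d, hd, Nat.mem_divisors_self d (Nat.pos_of_mem_properDivisors hd).ne'⟩
    rw [h2] at h1
    rw [← prim_mul h hm, h1, ← Nat.insert_self_properDivisors (by omega),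
      Finset.prod_insert (by simp)]

theorem lcm_eq (h : SD a) (S : Finset ℕ) (hS : ∀ s ∈ S, 1 ≤ s) :
    S.lcm a = ∏ d ∈ S.biUnion Nat.divisors, prim a d :=
  lcm_eq_prod h _ S le_rfl hS fun s hs d hd => base h d (Nat.pos_of_dvd_of_pos hd (hS s hs))

theorem prod_window (h : SD a) {S : Finset ℕ} {n : ℕ} (hS : S ⊆ Icc 1 n) :
    ∏ m ∈ S, a m = ∏ d ∈ Icc 1 n, prim a d ^ (S.filter fun m => d ∣ m).card := by
  have h1 : ∀ m ∈ S, a m = ∏ d ∈ Icc 1 n, if d ∣ m then prim a d else 1 := by
    intro m hm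
    have hm' := mem_Icc.1 (hS hm)
    rw [← Finset.prod_filter]
    have h2 : a m = ∏ d ∈ m.divisors, prim a d := base h m hm'.1
    rw [h2]
    refine Finset.prod_congr ?_ fun _ _ => rfl
    ext d
    rw [Nat.mem_divisors, mem_filter, mem_Icc]
    constructor
    · rintro ⟨hd, _⟩
      exact ⟨⟨Nat.pos_of_dvd_of_pos hd (by omega), (Nat.le_of_dvd (by omega) hd).trans hm'.2⟩, hd⟩
    · rintro ⟨_, hd⟩
      exact ⟨hd, by omega⟩
  rw [Finset.prod_congr rfl h1, Finset.prod_comm]
  refine Finset.prod_congr rfl fun d _ => ?_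
  rw [Finset.prod_ite, Finset.prod_const, Finset.prod_const_one, mul_one]

theorem lcm_window (h : SD a) {S : Finset ℕ} {n : ℕ} (hS : S ⊆ Icc 1 n) :
    S.lcm a = ∏ d ∈ Icc 1 n, prim a d ^ (min 1 (S.filter fun m => d ∣ m).card) := by
  rw [lcm_eq h S fun s hs => (mem_Icc.1 (hS hs)).1]
  have h1 : S.biUnion Nat.divisors =
      (Icc 1 n).filter fun d => 1 ≤ (S.filter fun m => d ∣ m).card := by
    ext d
    rw [mem_biUnion, mem_filter, mem_Icc]
    constructor
    · rintro ⟨m, hm, hd⟩
      have hm' := mem_Icc.1 (hS hm)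
      have hd' := Nat.dvd_of_mem_divisors hd
      refine ⟨⟨Nat.pos_of_dvd_of_pos hd' (by omega), (Nat.le_of_dvd (by omega) hd').trans hm'.2⟩, ?_⟩
      exact Finset.card_pos.2 ⟨m, mem_filter.2 ⟨hm, hd'⟩⟩
    · rintro ⟨_, hc⟩
      obtain ⟨m, hm⟩ := Finset.card_pos.1 hc
      rw [mem_filter] at hm
      have hm' := mem_Icc.1 (hS hm.1)
      exact ⟨m, hm.1, Nat.mem_divisors.2 ⟨hm.2, by omega⟩⟩
  rw [h1, Finset.prod_filter]
  refine Finset.prod_congr rfl fun d _ => ?_
  split_ifs with h2
  · rw [Nat.min_eq_left h2, pow_one]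
  · rw [show (S.filter fun m => d ∣ m).card = 0 by omega]
    simp

theorem card_window (n k d : ℕ) (hk : k ≤ n) :
    ((Ioc (n - k) n).filter fun m => d ∣ m).card = n / d - (n - k) / d := by
  have h1 := Nat.Ioc_filter_dvd_card_eq_div n d
  have h2 := Nat.Ioc_filter_dvd_card_eq_div (n - k) d
  have h3 : (Ioc 0 n).filter (fun m => d ∣ m) =
      (Ioc 0 (n - k)).filter (fun m => d ∣ m) ∪ (Ioc (n - k) n).filter (fun m => d ∣ m) := by
    rw [← Finset.filter_union, Finset.Ioc_union_Ioc_eq_Ioc (by omega) (by omega)]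
  have h4 : Disjoint ((Ioc 0 (n - k)).filter (fun m => d ∣ m))
      ((Ioc (n - k) n).filter (fun m => d ∣ m)) := by
    apply Finset.disjoint_filter_filter
    rw [Finset.disjoint_left]
    intro x hx hx'
    rw [mem_Ioc] at hx hx'
    omega
  rw [h3, Finset.card_union_of_disjoint h4, h2] at h1
  omega

/-- the main criterion -/
theorem main (h : SD a) {n k : ℕ} (hk : 1 ≤ k) (hkn : k ≤ n) :
    (∏ m ∈ Ioc (n - k) n, a m) * (Icc 1 k).lcm a = (∏ m ∈ Icc 1 k, a m) * (Ioc (n - k) n).lcm a ↔
      ∀ d, 2 ≤ d → d ≤ k → prim a d = 1 ∨ k % d ≤ n % d := by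
  have hW : Ioc (n - k) n ⊆ Icc 1 n := by
    intro x hx; rw [mem_Ioc] at hx; rw [mem_Icc]; omega
  have hI : Icc 1 k ⊆ Icc 1 n := by
    intro x hx; rw [mem_Icc] at hx ⊢; omega
  have hIk : ∀ d, ((Icc 1 k).filter fun m => d ∣ m).card = k / d := fun d =>
    Nat.Ioc_filter_dvd_card_eq_div k d
  rw [prod_window h hW, prod_window h hI, lcm_window h hW, lcm_window h hI,
    ← Finset.prod_mul_distrib, ← Finset.prod_mul_distrib]
  simp only [hIk, card_window n k _ hkn, ← pow_add]
  -- arithmetic of the exponents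
  have harith : ∀ d, 1 ≤ d → k / d + min 1 (n / d - (n - k) / d) ≤
      n / d - (n - k) / d + min 1 (k / d) ∧
      (k / d + min 1 (n / d - (n - k) / d) = n / d - (n - k) / d + min 1 (k / d) ↔
        (d ≤ k → k % d ≤ n % d)) := by
    intro d hd
    obtain ⟨b, hb⟩ : ∃ b, n = k + b := ⟨n - k, by omega⟩
    subst hb
    rw [Nat.add_sub_cancel_left]
    have e1 := Nat.div_add_mod k d
    have e2 := Nat.div_add_mod b d
    have e3 := Nat.div_add_mod (k + b) d
    have l1 := Nat.mod_lt k hd
    have l2 := Nat.mod_lt b hd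
    have l3 := Nat.mod_lt (k + b) hd
    set x := k / d
    set y := b / d
    set z := (k + b) / d
    set r := k % d
    set s := b % d
    set t := (k + b) % d
    clear_value x y z r s t
    have hz : (z = x + y ∧ t = r + s) ∨ (z = x + y + 1 ∧ t + d = r + s) := by
      rcases lt_or_ge (r + s) d with hc | hc
      · left
        have h5 : d * z + t = d * (x + y) + (r + s) := by rw [mul_add]; omega
        have h6 : z = x + y := by
          rcases lt_trichotomy z (x + y) with h7 | h7 | h7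
          · exfalso
            have : d * (z + 1) ≤ d * (x + y) := Nat.mul_le_mul_left _ h7
            rw [mul_add, mul_one] at this
            omega
          · exact h7
          · exfalso
            have : d * (x + y + 1) ≤ d * z := Nat.mul_le_mul_left _ h7
            rw [mul_add d (x + y), mul_one] at this
            omega
        refine ⟨h6, ?_⟩
        rw [h6] at h5
        omega
      · right
        have h5 : d * z + t = d * (x + y + 1) + (r + s - d) := by
          rw [mul_add d (x + y), mul_add, mul_one]; omega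
        have h6 : z = x + y + 1 := by
          rcases lt_trichotomy z (x + y + 1) with h7 | h7 | h7
          · exfalso
            have : d * (z + 1) ≤ d * (x + y + 1) := Nat.mul_le_mul_left _ h7
            rw [mul_add, mul_one] at this
            omega
          · exact h7
          · exfalso
            have : d * (x + y + 1 + 1) ≤ d * z := Nat.mul_le_mul_left _ h7
            rw [mul_add d (x + y + 1), mul_one] at this
            omega
        refine ⟨h6, ?_⟩
        rw [h6] at h5
        omega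
    have hx : d ≤ k ↔ 1 ≤ x := by
      constructor
      · intro hdk
        by_contra hc
        have : x = 0 := by omega
        rw [this, mul_zero] at e1
        omega
      · intro hx1
        have : d * 1 ≤ d * x := Nat.mul_le_mul_left _ hx1
        omega
    rw [hx]
    rcases hz with ⟨h1, h2⟩ | ⟨h1, h2⟩
    · omega
    · omega
  have hsplit : ∏ d ∈ Icc 1 n, prim a d ^ (n / d - (n - k) / d + min 1 (k / d)) =
      (∏ d ∈ Icc 1 n, prim a d ^ (k / d + min 1 (n / d - (n - k) / d))) *
      ∏ d ∈ Icc 1 n, prim a d ^ (n / d - (n - k) / d + min 1 (k / d) -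
        (k / d + min 1 (n / d - (n - k) / d))) := by
    rw [← Finset.prod_mul_distrib]
    refine Finset.prod_congr rfl fun d hd => ?_
    rw [← pow_add, Nat.add_sub_cancel' (harith d (mem_Icc.1 hd).1).1]
  have hpos : 0 < ∏ d ∈ Icc 1 n, prim a d ^ (k / d + min 1 (n / d - (n - k) / d)) :=
    Finset.prod_pos fun d hd => pow_pos (prim_pos h (mem_Icc.1 hd).1) _
  rw [hsplit]
  rw [Nat.mul_eq_left hpos.ne', Finset.prod_eq_one_iff]
  constructor
  · intro hall d hd2 hdk
    have h1 := hall d (mem_Icc.2 ⟨by omega, by omega⟩)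
    have h2 := harith d (by omega)
    rcases pow_eq_one_iff.1 h1 with h3 | h3
    · exact Or.inl h3
    · right
      exact h2.2.1 (by omega) hdk
  · intro hall d hd
    have hd1 := mem_Icc.1 hd
    have h2 := harith d hd1.1
    rcases Nat.lt_or_ge 1 d with h5 | h5
    · rcases Nat.lt_or_ge k d with h6 | h6
      · have h7 := h2.2.2 (fun h8 => absurd h8 (by omega))
        rw [h7, Nat.sub_self, pow_zero]
      · rcases hall d h5 h6 with h8 | h8
        · rw [h8, one_pow]
        · have h7 := h2.2.2 (fun _ => h8)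
          rw [h7, Nat.sub_self, pow_zero]
    · obtain rfl : d = 1 := by omega
      have h7 := h2.2.2 (fun _ => by rw [Nat.mod_one, Nat.mod_one])
      rw [h7, Nat.sub_self, pow_zero]

end Pool.Agent.R437.SDiv
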