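import Mathlib
import Pool.Agent.R437.SDiv

set_option autoImplicit false

/-!
# Lucas sequences: strong divisibility and primitive parts
-/

open Finset

namespace Pool.Agent.R437.Lucas

open Pool.Agent.R437.SDiv

/-- the Lucas sequence `U_0 = 0`, `U_1 = 1`, `U_{n+2} = P U_{n+1} - Q U_n` -/
def U (P Q : ℤ) : ℕ → ℤ
  | 0 => 0
  | 1 => 1
  | (n + 2) => P * U P Q (n + 1) - Q * U P Q n

variable {P Q : ℤ}

theorem U_succ (P Q : ℤ) (n : ℕ) : U P Q (n + 2) = P * U P Q (n + 1) - Q * U P Q n := rfl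

theorem U_add (P Q : ℤ) (m n : ℕ) :
    U P Q (m + n + 1) = U P Q (m + 1) * U P Q (n + 1) - Q * U P Q m * U P Q n := by
  induction n using Nat.twoStepInduction with
  | zero => simp [U]
  | one => simp [U]; ring
  | more n ih1 ih2 =>
    rw [show m + (n + 2) + 1 = (m + n + 1) + 2 by ring, U_succ,
      show m + n + 1 + 1 = m + (n + 1) + 1 by ring, ih2, ih1,
      show n + 2 + 1 = (n + 1) + 2 by ring, U_succ P Q (n + 1), U_succ P Q n]
    ring

theorem coprime_Q (h : IsCoprime P Q) (n : ℕ) : IsCoprime (U P Q (n + 1)) Q := by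
  induction n with
  | zero => simpa [U] using (isCoprime_one_left : IsCoprime (1 : ℤ) Q)
  | succ n ih =>
    rw [show n + 1 + 1 = n + 2 from rfl, U_succ]
    have h1 : IsCoprime (P * U P Q (n + 1)) Q := h.mul_left ih
    have h2 := h1.add_mul_left_left (-(U P Q n))
    rwa [show P * U P Q (n + 1) + Q * -(U P Q n) = P * U P Q (n + 1) - Q * U P Q n by ring] at h2

theorem coprime_succ (h : IsCoprime P Q) (n : ℕ) : IsCoprime (U P Q (n + 1)) (U P Q n) := by
  induction n with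
  | zero => simpa [U] using (isCoprime_one_left : IsCoprime (1 : ℤ) 0)
  | succ n ih =>
    rw [show n + 1 + 1 = n + 2 from rfl, U_succ]
    have h1 : IsCoprime (-(Q * U P Q n)) (U P Q (n + 1)) :=
      ((coprime_Q h n).symm.mul_left ih.symm).neg_left
    have h2 := h1.add_mul_left_left P
    rwa [show -(Q * U P Q n) + U P Q (n + 1) * P = P * U P Q (n + 1) - Q * U P Q n by ring] at h2

theorem gcd_add (h : IsCoprime P Q) (m n : ℕ) :
    Int.gcd (U P Q (m + n)) (U P Q m) = Int.gcd (U P Q n) (U P Q m) := by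
  rcases Nat.eq_zero_or_pos n with rfl | hn
  · simp [U]
  obtain ⟨n, rfl⟩ : ∃ n', n = n' + 1 := ⟨n - 1, by omega⟩
  rw [← add_assoc, U_add]
  have h1 : U P Q (m + 1) * U P Q (n + 1) - Q * U P Q m * U P Q n =
      U P Q (m + 1) * U P Q (n + 1) + U P Q m * (-(Q * U P Q n)) := by ring
  rw [h1, Int.gcd_add_mul_left_left, Int.gcd_comm, Int.gcd_comm (U P Q (n + 1))]
  have h2 : IsCoprime (U P Q m) (U P Q (m + 1)) := (coprime_succ h m).symm
  rw [Int.isCoprime_iff_gcd_eq_one] at h2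
  exact Int.gcd_mul_right_right_of_gcd_eq_one h2

theorem gcd_U (h : IsCoprime P Q) (m n : ℕ) :
    Int.gcd (U P Q m) (U P Q n) = (U P Q (Nat.gcd m n)).natAbs := by
  induction m, n using Nat.gcd.induction with
  | H0 n => simp [U]
  | H1 m n hm ih =>
    rw [← Nat.gcd_rec] at ih
    rw [← ih]
    have h1 : ∀ q r : ℕ, Int.gcd (U P Q m) (U P Q (m * q + r)) =
        Int.gcd (U P Q r) (U P Q m) := by
      intro q r
      induction q with
      | zero => rw [mul_zero, zero_add, Int.gcd_comm]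
      | succ q ihq =>
        rw [show m * (q + 1) + r = m + (m * q + r) by ring, Int.gcd_comm, gcd_add h, Int.gcd_comm,
          ihq]
    have h2 := h1 (n / m) (n % m)
    rwa [Nat.div_add_mod] at h2

theorem sd (h : IsCoprime P Q) (hne : ∀ n, 1 ≤ n → U P Q n ≠ 0) :
    SD (fun n => (U P Q n).natAbs) where
  pos := fun n hn => Int.natAbs_pos.2 (hne n hn)
  gcd := fun m n _ _ => gcd_U h m n

/-- closed form -/
theorem closed {α β : ℂ} (h1 : α + β = P) (h2 : α * β = Q) (n : ℕ) :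
    (U P Q n : ℂ) * (α - β) = α ^ n - β ^ n := by
  induction n using Nat.twoStepInduction with
  | zero => simp [U]
  | one => simp [U]
  | more n ih1 ih2 =>
    rw [U_succ]
    push_cast
    rw [← h1, ← h2]
    linear_combination (α + β) * ih2 - α * β * ih1

theorem ne_zero_of {α β : ℂ} (h1 : α + β = P) (h2 : α * β = Q) (hQ : Q ≠ 0)
    (hr : ∀ m : ℕ, 1 ≤ m → (α / β) ^ m ≠ 1) (n : ℕ) (hn : 1 ≤ n) : U P Q n ≠ 0 := by
  intro h0
  have h3 := closed h1 h2 n
  rw [h0, Int.cast_zero, zero_mul] at h3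
  have hβ : β ≠ 0 := by
    rintro rfl
    rw [mul_zero] at h2
    exact hQ (by exact_mod_cast h2.symm)
  apply hr n hn
  rw [div_pow, div_eq_one_iff_eq (pow_ne_zero _ hβ)]
  exact (sub_eq_zero.1 h3.symm)

/-- the homogeneous cyclotomic number `∏ (α - ζ β)` over the primitive `d`-th roots of unity -/
noncomputable def cyc (α β : ℂ) (d : ℕ) : ℂ := ∏ ζ ∈ primitiveRoots d ℂ, (α - ζ * β)

theorem cyc_eq {α β : ℂ} (hβ : β ≠ 0) {d : ℕ} (hd : 1 ≤ d) :
    cyc α β d = β ^ d.totient * (Polynomial.cyclotomic d ℂ).eval (α / β) := by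
  have hprim := Complex.isPrimitiveRoot_exp d (by omega)
  rw [Polynomial.cyclotomic_eq_prod_X_sub_primitiveRoots hprim, Polynomial.eval_prod, cyc,
    ← hprim.card_primitiveRoots, ← Finset.prod_const, ← Finset.prod_mul_distrib]
  refine Finset.prod_congr rfl fun ζ _ => ?_
  rw [Polynomial.eval_sub, Polynomial.eval_X, Polynomial.eval_C]
  field_simp

theorem prod_cyc {α β : ℂ} (hβ : β ≠ 0) {n : ℕ} (hn : 1 ≤ n) :
    ∏ d ∈ n.divisors, cyc α β d = α ^ n - β ^ n := by
  have h1 : ∏ d ∈ n.divisors, cyc α β d =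
      (∏ d ∈ n.divisors, β ^ d.totient) *
        ∏ d ∈ n.divisors, (Polynomial.cyclotomic d ℂ).eval (α / β) := by
    rw [← Finset.prod_mul_distrib]
    exact Finset.prod_congr rfl fun d hd => cyc_eq hβ (Nat.pos_of_mem_divisors hd)
  rw [h1, ← Polynomial.eval_prod, Polynomial.prod_cyclotomic_eq_X_pow_sub_one (by omega),
    Finset.prod_pow_eq_pow_sum, Nat.sum_totient, Polynomial.eval_sub, Polynomial.eval_pow,
    Polynomial.eval_X, Polynomial.eval_one, mul_sub, mul_one, div_pow,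
    mul_div_cancel₀ _ (pow_ne_zero _ hβ)]

theorem cyc_one (α β : ℂ) : cyc α β 1 = α - β := by
  have h : primitiveRoots 1 ℂ = {1} := by
    ext x
    rw [mem_primitiveRoots one_pos, IsPrimitiveRoot.one_right_iff, mem_singleton]
  rw [cyc, h, Finset.prod_singleton, one_mul]

theorem prim_eq_cyc (h : IsCoprime P Q) (hne : ∀ n, 1 ≤ n → U P Q n ≠ 0) {α β : ℂ}
    (h1 : α + β = P) (h2 : α * β = Q) (hQ : Q ≠ 0) (hαβ : α ≠ β) (d : ℕ) (hd : 2 ≤ d) :
    (prim (fun n => (U P Q n).natAbs) d : ℝ) = ‖cyc α β d‖ := by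
  have hsd := sd h hne
  have hβ : β ≠ 0 := by
    rintro rfl
    rw [mul_zero] at h2
    exact hQ (by exact_mod_cast h2.symm)
  induction d using Nat.strong_induction_on with
  | _ d ih =>
    have e1 : (U P Q d).natAbs = ∏ e ∈ d.divisors, prim (fun n => (U P Q n).natAbs) e :=
      base hsd d (by omega)
    have e2 := prod_cyc (α := α) hβ (show 1 ≤ d by omega)
    rw [← closed h1 h2] at e2
    have hmem : d ∈ d.divisors := Nat.mem_divisors_self d (by omega)
    have h1mem : 1 ∈ d.divisors.erase d := by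
      rw [mem_erase]; exact ⟨by omega, Nat.one_mem_divisors.2 (by omega)⟩
    have e3 : (∏ e ∈ d.divisors, prim (fun n => (U P Q n).natAbs) e : ℕ) =
        prim (fun n => (U P Q n).natAbs) d * (prim (fun n => (U P Q n).natAbs) 1 *
          ∏ e ∈ (d.divisors.erase d).erase 1, prim (fun n => (U P Q n).natAbs) e) := by
      rw [Finset.mul_prod_erase _ _ h1mem, Finset.mul_prod_erase _ _ hmem]
    have e4 : ∏ e ∈ d.divisors, cyc α β e =
        cyc α β d * (cyc α β 1 * ∏ e ∈ (d.divisors.erase d).erase 1, cyc α β e) := by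
      rw [Finset.mul_prod_erase _ _ h1mem, Finset.mul_prod_erase _ _ hmem]
    have hp1 : prim (fun n => (U P Q n).natAbs) 1 = 1 := by
      simp [prim, U]
    rw [hp1, one_mul] at e3
    rw [e4, cyc_one] at e2
    have e5 : ‖∏ e ∈ (d.divisors.erase d).erase 1, cyc α β e‖ =
        ((∏ e ∈ (d.divisors.erase d).erase 1, prim (fun n => (U P Q n).natAbs) e : ℕ) : ℝ) := by
      rw [norm_prod]
      push_cast
      refine Finset.prod_congr rfl fun e he => ?_
      rw [mem_erase, mem_erase, Nat.mem_divisors] at he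
      have he1 : 0 < e := Nat.pos_of_dvd_of_pos he.2.2.1 (by omega)
      have he2 : e ≤ d := Nat.le_of_dvd (by omega) he.2.2.1
      exact (ih e (by omega) (by omega)).symm
    have e6 : ‖(α - β)‖ ≠ 0 := norm_ne_zero_iff.2 (sub_ne_zero.2 hαβ)
    have e7 := congrArg norm e2
    rw [norm_mul, norm_mul, norm_mul, e5] at e7
    have e8 : ‖(U P Q d : ℂ)‖ = ((U P Q d).natAbs : ℝ) := by
      rw [Complex.norm_intCast, Nat.cast_natAbs, Int.cast_abs]
    rw [e8, e1, e3, Nat.cast_mul] at e7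
    have e9 : ((∏ e ∈ (d.divisors.erase d).erase 1,
        prim (fun n => (U P Q n).natAbs) e : ℕ) : ℝ) ≠ 0 := by
      have : ∏ e ∈ (d.divisors.erase d).erase 1, prim (fun n => (U P Q n).natAbs) e ≠ 0 := by
        rw [Finset.prod_ne_zero_iff]
        intro e he
        rw [mem_erase, mem_erase, Nat.mem_divisors] at he
        exact (prim_pos hsd (Nat.pos_of_dvd_of_pos he.2.2.1 (by omega))).ne'
      exact_mod_cast this
    apply mul_right_cancel₀ (mul_ne_zero e9 e6)
    linear_combination -e7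

theorem factor_gt (hPQ : P * Q ≠ 0) (hD : 0 < P ^ 2 - 4 * Q) {α β : ℂ}
    (h1 : α + β = P) (h2 : α * β = Q) {ζ : ℂ} {d : ℕ} (hd : 3 ≤ d) (hζ : IsPrimitiveRoot ζ d) :
    1 < ‖α - ζ * β‖ := by
  -- real roots
  have hP : P ≠ 0 := left_ne_zero_of_mul hPQ
  have hQ : Q ≠ 0 := right_ne_zero_of_mul hPQ
  set D : ℝ := ((P ^ 2 - 4 * Q : ℤ) : ℝ) with hDdef
  have hDpos : 0 < D := by rw [hDdef]; exact_mod_cast hD
  have hs : ((Real.sqrt D : ℝ) : ℂ) ^ 2 = (α - β) ^ 2 := by
    rw [← Complex.ofReal_pow, Real.sq_sqrt hDpos.le, hDdef]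
    push_cast
    rw [← h1, ← h2]
    ring
  obtain ⟨s, hs2⟩ : ∃ s : ℝ, α - β = s := by
    rcases sq_eq_sq_iff_eq_or_eq_neg.1 hs with h | h
    · exact ⟨Real.sqrt D, h.symm⟩
    · refine ⟨-Real.sqrt D, ?_⟩
      rw [Complex.ofReal_neg, h, neg_neg]
  obtain ⟨a, ha⟩ : ∃ a : ℝ, α = a := by
    refine ⟨((P : ℝ) + s) / 2, ?_⟩
    push_cast
    linear_combination (1 / 2) * h1 + (1 / 2) * hs2
  obtain ⟨b, hb⟩ : ∃ b : ℝ, β = b := by
    refine ⟨((P : ℝ) - s) / 2, ?_⟩
    push_cast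
    linear_combination (1 / 2) * h1 - (1 / 2) * hs2
  subst ha hb
  have h1' : a + b = P := by exact_mod_cast h1
  have h2' : a * b = Q := by exact_mod_cast h2
  -- the root of unity
  have hn : ζ.re ^ 2 + ζ.im ^ 2 = 1 := by
    have h3 : ‖ζ‖ = 1 := hζ.norm'_eq_one (by omega)
    have h4 : Complex.normSq ζ = 1 := by rw [Complex.normSq_eq_norm_sq, h3]; norm_num
    rw [Complex.normSq_apply] at h4
    linarith [h4, sq ζ.re, sq ζ.im]
  have hx1 : ζ.re ≠ 1 := by
    intro hx
    have hy : ζ.im = 0 := by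
      rw [hx] at hn
      nlinarith
    have : ζ = 1 := Complex.ext (by simpa using hx) (by simpa using hy)
    rw [this, IsPrimitiveRoot.one_left_iff] at hζ
    omega
  have hx2 : ζ.re ≠ -1 := by
    intro hx
    have hy : ζ.im = 0 := by
      rw [hx] at hn
      nlinarith
    have h5 : ζ = -1 := Complex.ext (by simpa using hx) (by simpa using hy)
    have h6 : ζ ^ 2 = 1 := by rw [h5]; norm_num
    have h7 := hζ.dvd_of_pow_eq_one 2 h6
    have := Nat.le_of_dvd (by norm_num) h7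
    omega
  have hlt1 : ζ.re < 1 := lt_of_le_of_ne (by nlinarith [sq_nonneg ζ.im]) hx1
  have hlt2 : -1 < ζ.re := lt_of_le_of_ne (by nlinarith [sq_nonneg ζ.im]) hx2.symm
  have hns : ‖(a : ℂ) - ζ * b‖ ^ 2 = (P : ℝ) ^ 2 - Q * (2 + 2 * ζ.re) := by
    rw [← Complex.normSq_eq_norm_sq, Complex.normSq_apply]
    simp only [Complex.sub_re, Complex.mul_re, Complex.ofReal_re, Complex.ofReal_im, mul_zero,
      sub_zero, Complex.sub_im, Complex.mul_im, zero_add, zero_sub, add_zero]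
    rw [← h1', ← h2']
    linear_combination b ^ 2 * hn
  have hgt : (1 : ℝ) < ‖(a : ℂ) - ζ * b‖ ^ 2 := by
    rw [hns]
    rcases lt_or_gt_of_ne hQ with hq | hq
    · have hq' : (Q : ℝ) < 0 := by exact_mod_cast hq
      have hp' : (1 : ℝ) ≤ (P : ℝ) ^ 2 := by
        have : 1 ≤ P ^ 2 := by
          have := sq_nonneg P
          have h8 : P ^ 2 ≠ 0 := pow_ne_zero 2 hP
          omega
        exact_mod_cast this
      nlinarith
    · have hq' : (0 : ℝ) < Q := by exact_mod_cast hq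
      have hD1 : (1 : ℝ) ≤ (P : ℝ) ^ 2 - 4 * Q := by
        have : 1 ≤ P ^ 2 - 4 * Q := hD
        exact_mod_cast this
      nlinarith
  nlinarith [norm_nonneg ((a : ℂ) - ζ * b)]

theorem cyc_gt (hPQ : P * Q ≠ 0) (hD : 0 < P ^ 2 - 4 * Q) {α β : ℂ}
    (h1 : α + β = P) (h2 : α * β = Q) {d : ℕ} (hd : 3 ≤ d) : 1 < ‖cyc α β d‖ := by
  have hprim := Complex.isPrimitiveRoot_exp d (by omega)
  rw [cyc, norm_prod]
  have h3 : ∏ _ζ ∈ primitiveRoots d ℂ, (1 : ℝ) < ∏ ζ ∈ primitiveRoots d ℂ, ‖α - ζ * β‖ := by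
    apply Finset.prod_lt_prod_of_nonempty
    · intro _ _; exact one_pos
    · intro ζ hζ
      exact factor_gt hPQ hD h1 h2 hd ((mem_primitiveRoots (by omega)).1 hζ)
    · exact ⟨_, (mem_primitiveRoots (by omega)).2 hprim⟩
  rwa [Finset.prod_const_one] at h3

theorem prim_two : prim (fun n => (U P Q n).natAbs) 2 = P.natAbs := by
  have : Nat.properDivisors 2 = {1} := by decide
  rw [prim, this, Finset.lcm_singleton]
  simp [U]

end Pool.Agent.R437.Lucas
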